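import Pool.Agent.Helper88.Ric.All
import Pool.Agent.Helper88.Ric.Perp

/-!
MP_092777_ag, Q1: a compact Kähler surface with negative orthogonal Ricci curvature which is not
projective.
-/

set_option autoImplicit false

open scoped ContDiff Manifold Topology LinearAlgebra.Projectivization ComplexConjugate
open Complex

noncomputable section

namespace Pool.Agent.Results.MP_092777_ag.NonProjective

/-- the model space of complex surfaces -/
abbrev E : Type := ℂ × ℂ

/-- the derivative `∂_v f` of `f` at `p`, for a constant vector `v` (complex linear in `v`) -/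
def dz (v : E) (f : E → ℂ) (p : E) : ℂ :=
  (fderiv ℝ f p v - I * fderiv ℝ f p (I • v)) / 2

/-- the derivative `∂̄_v f` of `f` at `p`, for a constant vector `v` (conjugate linear in `v`) -/
def dzb (v : E) (f : E → ℂ) (p : E) : ℂ :=
  (fderiv ℝ f p v + I * fderiv ℝ f p (I • v)) / 2

/-- a real function as a complex valued one -/
def toC (φ : E → ℝ) : E → ℂ := fun x => (φ x : ℂ)

/-- the Levi form `∂_v ∂̄_w φ` of `φ` at `p`: the Hermitian form of the Kähler metric with local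
potential `φ` -/
def levi (φ : E → ℝ) (p v w : E) : ℂ := dz v (dzb w (toC φ)) p

/-- `(f₁, f₂)` is a unitary frame at `p` of the metric with potential `φ` -/
def UnitaryFrame (φ : E → ℝ) (p f₁ f₂ : E) : Prop :=
  levi φ p f₁ f₁ = 1 ∧ levi φ p f₂ f₂ = 1 ∧ levi φ p f₁ f₂ = 0

/-- the curvature tensor `R(a, b̄, c, d̄)` at `p` of the metric with potential `φ`, computed with
the unitary frame `(f₁, f₂)` at `p`:
`R(a, b̄, c, d̄) = - ∂_a ∂̄_b ∂_c ∂̄_d φ + ∑_i (∂_a ∂_c ∂̄_{f_i} φ) (∂̄_b ∂̄_d ∂_{f_i} φ)`;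
the last factor is the conjugate of `∂_b ∂_d ∂̄_{f_i} φ`. -/
def Rm (φ : E → ℝ) (p f₁ f₂ a b c d : E) : ℂ :=
  - dz a (dzb b (dz c (dzb d (toC φ)))) p
    + (dz a (dz c (dzb f₁ (toC φ))) p * conj (dz b (dz d (dzb f₁ (toC φ))) p)
      + dz a (dz c (dzb f₂ (toC φ))) p * conj (dz b (dz d (dzb f₂ (toC φ))) p))

/-- the orthogonal Ricci curvature `Ric(v, v̄) - R(v, v̄, v, v̄) / |v|²`, where
`Ric(v, v̄) = R(v, v̄, f₁, f̄₁) + R(v, v̄, f₂, f̄₂)` -/
def RicPerp (φ : E → ℝ) (p f₁ f₂ v : E) : ℝ :=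
  (Rm φ p f₁ f₂ v v f₁ f₁ + Rm φ p f₁ f₂ v v f₂ f₂).re
    - (Rm φ p f₁ f₂ v v v v).re / (levi φ p v v).re

/-- A Kähler metric on a complex surface, given by local potentials whose Levi forms are positive
definite and agree on overlaps. -/
structure KahlerMetric (X : Type) [TopologicalSpace X] [ChartedSpace E X] where
  charts : Set (OpenPartialHomeomorph X E)
  pot : OpenPartialHomeomorph X E → E → ℝ
  mem_atlas : ∀ e ∈ charts, e ∈ IsManifold.maximalAtlas 𝓘(ℂ, E) ω X
  cover : ∀ x : X, ∃ e ∈ charts, x ∈ e.source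
  smooth : ∀ e ∈ charts, ContDiffOn ℝ ∞ (pot e) e.target
  pos : ∀ e ∈ charts, ∀ p ∈ e.target, ∀ v : E, v ≠ 0 → 0 < (levi (pot e) p v v).re
  compat : ∀ e ∈ charts, ∀ e' ∈ charts, ∀ x ∈ e.source ∩ e'.source, ∀ v w : E,
    levi (pot e) (e x) v w =
      levi (pot e') (e' x) (fderiv ℂ (e' ∘ e.symm) (e x) v) (fderiv ℂ (e' ∘ e.symm) (e x) w)

/-- negative orthogonal Ricci curvature -/
def KahlerMetric.NegRicPerp {X : Type} [TopologicalSpace X] [ChartedSpace E X]
    (K : KahlerMetric X) : Prop :=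
  ∀ e ∈ K.charts, ∀ p ∈ e.target, ∀ f₁ f₂ : E, UnitaryFrame (K.pot e) p f₁ f₂ →
    ∀ v : E, v ≠ 0 → RicPerp (K.pot e) p f₁ f₂ v < 0

/-- `f : X → ℙⁿ` is holomorphic -/
def HolToProj {X : Type} [TopologicalSpace X] [ChartedSpace E X] (n : ℕ)
    (f : X → ℙ ℂ (Fin (n + 1) → ℂ)) : Prop :=
  ∀ x : X, ∃ e ∈ IsManifold.maximalAtlas 𝓘(ℂ, E) ω X, x ∈ e.source ∧
    ∃ F : E → (Fin (n + 1) → ℂ), DifferentiableOn ℂ F e.target ∧
      ∀ y ∈ e.source, ∃ h : F (e y) ≠ 0, f y = Projectivization.mk ℂ (F (e y)) h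

/-- `X` admits an injective holomorphic map to some complex projective space; in particular every
projective manifold has this property -/
def InjectsIntoProj (X : Type) [TopologicalSpace X] [ChartedSpace E X] : Prop :=
  ∃ (n : ℕ) (f : X → ℙ ℂ (Fin (n + 1) → ℂ)), Function.Injective f ∧ HolToProj n f

/-- There is a compact connected complex surface with a Kähler metric of negative orthogonal Ricci
curvature which is not projective; it does not even admit an injective holomorphic map to a complex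
projective space. -/
theorem result : ∃ (X : Type) (_ : TopologicalSpace X) (_ : ChartedSpace E X),
    IsManifold 𝓘(ℂ, E) ω X ∧ CompactSpace X ∧ T2Space X ∧ ConnectedSpace X ∧
    (∃ K : KahlerMetric X, K.NegRicPerp) ∧ ¬ InjectsIntoProj X := by
  obtain ⟨X, i1, i2, h1, h2, h3, h4, ⟨K, hK⟩, h5⟩ := RicP.st_ALL
  refine ⟨X, i1, i2, h1, h2, h3, h4, ⟨⟨K.charts, K.pot, K.mem_atlas, K.cover, K.smooth, K.pos,
    K.compat⟩, ?_⟩, h5⟩
  intro e he p hp f₁ f₂ hf v hv
  exact RicP.perp_neg e.open_target (K.smooth e he) hp (hK e he p hp) hf hv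

end Pool.Agent.Results.MP_092777_ag.NonProjective
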